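import Mathlib
import Pool.Agent.helper29.Conical.Pairs
import Pool.Agent.helper29.Conical.Meas
import Pool.Agent.helper29.Conical.Null
import Pool.Agent.helper29.Conical.Unrect

/-!
Failure of the uniform conical upper density theorem for purely unrectifiable sets in the plane.
-/

set_option autoImplicit false

namespace Pool.Agent.Results.MP_924b48_an.ConicalDensityFails

open Set MeasureTheory Measure Filter Topology
open scoped ENNReal NNReal
open Pool.Agent.helper29.Conical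

/-- `F ⊆ ℝⁿ` is `m`-rectifiable: apart from an `H^m`-null set, it lies in a countable union of
Lipschitz images of `ℝ^m`. -/
def Rectifiable (m n : ℕ) (F : Set (EuclideanSpace ℝ (Fin n))) : Prop :=
  ∃ f : ℕ → EuclideanSpace ℝ (Fin m) → EuclideanSpace ℝ (Fin n),
    (∀ i, ∃ K : ℝ≥0, LipschitzWith K (f i)) ∧ μH[(m : ℝ)] (F \ ⋃ i, range (f i)) = 0

/-- `E ⊆ ℝⁿ` is purely `m`-unrectifiable: it meets every `m`-rectifiable set in an `H^m`-null
set. -/
def PurelyUnrectifiable (m n : ℕ) (E : Set (EuclideanSpace ℝ (Fin n))) : Prop :=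
  ∀ F : Set (EuclideanSpace ℝ (Fin n)), Rectifiable m n F → μH[(m : ℝ)] (E ∩ F) = 0

/-- The cone at `x` with axis `V` and opening `α`, truncated at radius `r`. -/
def cone {n : ℕ} (x : EuclideanSpace ℝ (Fin n)) (r : ℝ)
    (V : Submodule ℝ (EuclideanSpace ℝ (Fin n))) (α : ℝ) : Set (EuclideanSpace ℝ (Fin n)) :=
  {y | y ∈ Metric.closedBall x r ∧
    Metric.infDist (y - x) (V : Set (EuclideanSpace ℝ (Fin n))) < α * ‖y - x‖}

/-- The upper conical density `limsup_{r ↓ 0} inf_{V ∈ G(n, n - m)} (2 r)^{-m} μ (X(x, r, V, α))`. -/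
noncomputable def Theta (m n : ℕ) (α : ℝ) (μ : Measure (EuclideanSpace ℝ (Fin n)))
    (x : EuclideanSpace ℝ (Fin n)) : ℝ≥0∞ :=
  limsup (fun r : ℝ => ⨅ (V : Submodule ℝ (EuclideanSpace ℝ (Fin n)))
    (_ : Module.finrank ℝ V = n - m), μ (cone x r V α) / ENNReal.ofReal ((2 * r) ^ m)) (𝓝[>] 0)

/-- The counterexample: the graph over `[0, 1)`. -/
noncomputable def graph (κ : ℝ) (N : ℕ) : Set (EuclideanSpace ℝ (Fin 2)) := fmap κ N '' Ico 0 1

theorem measurable_gfun (κ : ℝ) {N : ℕ} (hN : 3 ≤ N) : Measurable (gfun κ N) := by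
  have h1 : Measurable (fun t => ∑' k : ℕ, (-1 : ℝ) ^ k * saw N k t) := by
    refine measurable_of_tendsto_metrizable (f := fun n t => ∑ k ∈ Finset.range n,
      (-1 : ℝ) ^ k * saw N k t) ?_ ?_
    · intro n
      apply Finset.measurable_sum
      intro k _
      unfold saw
      fun_prop
    · rw [tendsto_pi_nhds]
      intro t
      exact (summable_term hN t).hasSum.tendsto_sum_nat
  exact h1.const_mul κ

theorem measurable_fmap (κ : ℝ) {N : ℕ} (hN : 3 ≤ N) : Measurable (fmap κ N) := by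
  have h : fmap κ N = (fun x : Fin 2 → ℝ => WithLp.toLp 2 x) ∘ (fun t => ![t, gfun κ N t]) := rfl
  rw [h]
  apply Measurable.comp
  · exact (PiLp.continuous_toLp 2 _).measurable
  · rw [measurable_pi_iff]
    intro i
    fin_cases i
    · exact measurable_id
    · exact measurable_gfun κ hN

theorem measurableSet_graph (κ : ℝ) {N : ℕ} (hN : 3 ≤ N) : MeasurableSet (graph κ N) := by
  apply measurableSet_Ico.image_of_measurable_injOn (measurable_fmap κ hN)
  intro s _ t _ hst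
  have := congrArg (fun x : EuclideanSpace ℝ (Fin 2) => x.ofLp 0) hst
  simpa [fmap] using this

theorem graph_unrectifiable {κ : ℝ} {N : ℕ} (hN : 3 ≤ N) (hκ : 0 < κ) :
    PurelyUnrectifiable 1 2 (graph κ N) := by
  rintro F ⟨f, hf, hF⟩
  have hcover : graph κ N ∩ F ⊆ (F \ ⋃ i, range (f i)) ∪ ⋃ i, (graph κ N ∩ range (f i)) := by
    rintro x ⟨hxE, hxF⟩
    by_cases hx : x ∈ ⋃ i, range (f i)
    · right
      obtain ⟨i, hi⟩ := mem_iUnion.mp hx
      exact mem_iUnion.mpr ⟨i, hxE, hi⟩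
    · left; exact ⟨hxF, hx⟩
  refine measure_mono_null hcover (measure_union_null hF (measure_iUnion_null fun i => ?_))
  obtain ⟨K, hK⟩ := hf i
  let γ : ℝ → EuclideanSpace ℝ (Fin 2) := fun t => f i (EuclideanSpace.single 0 t)
  have hγ : LipschitzWith K γ := by
    apply LipschitzWith.of_dist_le_mul
    intro a b
    have h1 := hK.dist_le_mul (EuclideanSpace.single 0 a) (EuclideanSpace.single 0 b)
    rwa [PiLp.dist_single_same] at h1
  have hrange : graph κ N ∩ range (f i) ⊆ γ '' (γ ⁻¹' graph κ N) := by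
    rintro x ⟨hx, ⟨y, hy⟩⟩
    have hy' : EuclideanSpace.single 0 (y.ofLp 0) = y := by
      ext j
      fin_cases j
      simp
    refine ⟨y.ofLp 0, ?_, ?_⟩
    · simp only [mem_preimage, γ]
      rw [hy', hy]; exact hx
    · simp only [γ]
      rw [hy', hy]
  refine measure_mono_null hrange ?_
  have h0 : (volume : Measure ℝ) ((fun t => (γ t).ofLp 1) '' (γ ⁻¹' graph κ N)) = 0 := by
    refine measure_mono_null ?_ (null_proj_zero hN hκ.le)
    rintro _ ⟨t, ⟨s, hs, hst⟩, rfl⟩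
    refine ⟨s, hs, ?_⟩
    simp only [← hst]
    simp [fmap]
  have h1 : (volume : Measure ℝ)
      ((fun t => (γ t).ofLp 1 - κ * (γ t).ofLp 0) '' (γ ⁻¹' graph κ N)) = 0 := by
    refine measure_mono_null ?_ (null_proj_one hN hκ.le)
    rintro _ ⟨t, ⟨s, hs, hst⟩, rfl⟩
    refine ⟨s, hs, ?_⟩
    simp only [← hst]
    simp [fmap]
  have h2 := curve_null γ K hγ _ κ hκ.ne' h0 h1
  rw [Nat.cast_one]
  exact h2

/-- Geometry of the cone around a diagonal direction `(1, σ)`, `σ = ± 1`. -/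
theorem le_infDist_span {α ε σ : ℝ} (hε0 : 0 ≤ ε) (hε : 2 * ε ≤ 1 - 2 * α ^ 2) (hσ : σ ^ 2 = 1)
    (v : EuclideanSpace ℝ (Fin 2))
    (hv : σ * (v.ofLp 1 * v.ofLp 0) ≤ ε * (v.ofLp 0) ^ 2) :
    α * ‖v‖ ≤ Metric.infDist v
      ((Submodule.span ℝ {(!₂[1, σ] : EuclideanSpace ℝ (Fin 2))} : Submodule ℝ _) : Set _) := by
  rw [Metric.le_infDist (Submodule.nonempty _)]
  intro w hw
  obtain ⟨s, rfl⟩ := Submodule.mem_span_singleton.mp hw
  rw [dist_eq_norm]
  apply le_of_sq_le_sq _ (norm_nonneg _)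
  rw [mul_pow, EuclideanSpace.norm_sq_eq, EuclideanSpace.norm_sq_eq]
  simp only [Fin.sum_univ_two, Real.norm_eq_abs, sq_abs]
  have e0 : (v - s • (!₂[1, σ] : EuclideanSpace ℝ (Fin 2))).ofLp 0 = v.ofLp 0 - s := by simp
  have e1 : (v - s • (!₂[1, σ] : EuclideanSpace ℝ (Fin 2))).ofLp 1 = v.ofLp 1 - s * σ := by simp
  rw [e0, e1]
  obtain ⟨h, hh⟩ : ∃ h, h = v.ofLp 0 := ⟨_, rfl⟩
  obtain ⟨D, hD⟩ : ∃ D, D = v.ofLp 1 := ⟨_, rfl⟩
  rw [← hh, ← hD] at hv ⊢
  have h1 : (h - s) ^ 2 + (D - s * σ) ^ 2 = (h - s) ^ 2 + (σ * D - s) ^ 2 := by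
    have : (D - s * σ) ^ 2 = σ ^ 2 * (D - s * σ) ^ 2 := by rw [hσ, one_mul]
    rw [this]
    have h2 : σ ^ 2 * (D - s * σ) ^ 2 = (σ * D - s * σ ^ 2) ^ 2 := by ring
    rw [h2, hσ]; ring
  have h3 : (h - σ * D) ^ 2 ≤ 2 * ((h - s) ^ 2 + (σ * D - s) ^ 2) := by
    nlinarith [sq_nonneg ((h - s) + (σ * D - s))]
  have h4 : (h - σ * D) ^ 2 = h ^ 2 + D ^ 2 - 2 * (σ * (D * h)) := by
    have : (h - σ * D) ^ 2 = h ^ 2 + σ ^ 2 * D ^ 2 - 2 * (σ * (D * h)) := by ring
    rw [this, hσ, one_mul]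
  rw [h1]
  have h5 : 2 * ε * h ^ 2 ≤ (1 - 2 * α ^ 2) * h ^ 2 := mul_le_mul_of_nonneg_right hε (sq_nonneg h)
  have h6 : 0 ≤ (1 - 2 * α ^ 2) * D ^ 2 := mul_nonneg (by linarith) (sq_nonneg D)
  linarith

theorem finrank_span_diag (σ : ℝ) :
    Module.finrank ℝ (Submodule.span ℝ {(!₂[1, σ] : EuclideanSpace ℝ (Fin 2))} : Submodule ℝ _)
      = 2 - 1 := by
  rw [finrank_span_singleton]
  intro h
  have := congrArg (fun x : EuclideanSpace ℝ (Fin 2) => x.ofLp 0) h
  simp at this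

/-- Main estimate at one point and one scale. -/
theorem cone_measure_le {κ ε η α : ℝ} {N : ℕ} (hN : 3 ≤ N) (hκ : 0 < κ) (hκ1 : κ ≤ 1 / 2)
    (hκε : κ ≤ ε / 8) (hη : 0 < η) (hηN : 1 ≤ η * κ * N)
    (hε : 2 * ε ≤ 1 - 2 * α ^ 2) (x : EuclideanSpace ℝ (Fin 2)) (hx : x ∈ graph κ N) (r : ℝ)
    (hr : 0 < r) :
    (⨅ (V : Submodule ℝ (EuclideanSpace ℝ (Fin 2)))
      (_ : Module.finrank ℝ V = 2 - 1), (μH[1].restrict (graph κ N)) (cone x r V α) /
        ENNReal.ofReal ((2 * r) ^ 1)) ≤ ENNReal.ofReal (2 * η) := by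
  obtain ⟨t₀, ht₀, rfl⟩ := hx
  have hε0 : 0 ≤ ε := by linarith
  -- it suffices to treat one direction
  suffices hmain : ∃ σ : ℝ, cone (fmap κ N t₀) r
      (Submodule.span ℝ {(!₂[1, σ] : EuclideanSpace ℝ (Fin 2))}) α ∩ graph κ N ⊆
        fmap κ N '' (Icc (t₀ - η * r) (t₀ + η * r) ∩ Ico 0 1) by
    obtain ⟨σ, hσ⟩ := hmain
    refine iInf₂_le_of_le _ (finrank_span_diag σ) ?_
    rw [Measure.restrict_apply' (measurableSet_graph κ hN)]
    have h1 : μH[1] (cone (fmap κ N t₀) r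
      (Submodule.span ℝ {(!₂[1, σ] : EuclideanSpace ℝ (Fin 2))}) α ∩ graph κ N) ≤
        ENNReal.ofReal (2 * (t₀ + η * r - (t₀ - η * r))) :=
      le_trans (measure_mono hσ) (hausdorff_image_le hN hκ.le hκ1 _ _
        (by have : 0 < η * r := mul_pos hη hr
            linarith))
    rw [pow_one]
    apply ENNReal.div_le_of_le_mul
    refine le_trans h1 ?_
    rw [← ENNReal.ofReal_mul (by positivity)]
    apply ENNReal.ofReal_le_ofReal
    linarith
  rcases dichotomy hN hκ hκε hη hηN ht₀ r with hcase | hcase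
  · refine ⟨1, ?_⟩
    rintro y ⟨⟨hyB, hyC⟩, ⟨t, ht, rfl⟩⟩
    refine ⟨t, ⟨?_, ht⟩, rfl⟩
    by_contra hout
    have hlarge : η * r ≤ |t - t₀| := by
      by_contra hlt
      push Not at hlt
      have := abs_le.mp hlt.le
      exact hout ⟨by linarith [this.1], by linarith [this.2]⟩
    have hdist : |gfun κ N t - gfun κ N t₀| ≤ r :=
      le_trans (abs_gfun_sub_le_dist_fmap κ t t₀) hyB
    have hsl := hcase t ht hlarge hdist
    have hcone := le_infDist_span (σ := 1) hε0 hε (by norm_num) (fmap κ N t - fmap κ N t₀)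
      (by simpa [fmap] using hsl)
    exact absurd hyC (not_lt.mpr hcone)
  · refine ⟨-1, ?_⟩
    rintro y ⟨⟨hyB, hyC⟩, ⟨t, ht, rfl⟩⟩
    refine ⟨t, ⟨?_, ht⟩, rfl⟩
    by_contra hout
    have hlarge : η * r ≤ |t - t₀| := by
      by_contra hlt
      push Not at hlt
      have := abs_le.mp hlt.le
      exact hout ⟨by linarith [this.1], by linarith [this.2]⟩
    have hdist : |gfun κ N t - gfun κ N t₀| ≤ r :=
      le_trans (abs_gfun_sub_le_dist_fmap κ t t₀) hyB
    have hsl := hcase t ht hlarge hdist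
    have hcone := le_infDist_span (σ := -1) hε0 hε (by norm_num) (fmap κ N t - fmap κ N t₀)
      (by
        have : -1 * ((gfun κ N t - gfun κ N t₀) * (t - t₀)) ≤ ε * (t - t₀) ^ 2 := by linarith
        simpa [fmap] using this)
    exact absurd hyC (not_lt.mpr hcone)

/-- For `n = 2`, `m = 1` and every opening `α < 1 / √2` there is no uniform lower bound for the
conical upper density of purely unrectifiable sets: for each `c > 0` there is a Borel purely
`1`-unrectifiable set `E` in the plane with `0 < H¹(E) < ∞` whose upper conical density is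
smaller than `c` at every point of `E`. -/
theorem result (α : ℝ) (hα : 0 < α) (hα' : α < 1 / √2) (c : ℝ≥0∞) (hc : 0 < c) :
    ∃ E : Set (EuclideanSpace ℝ (Fin 2)), MeasurableSet E ∧ PurelyUnrectifiable 1 2 E ∧
      0 < μH[1] E ∧ μH[1] E < ∞ ∧
      ∀ x ∈ E, Theta 1 2 α (μH[1].restrict E) x < c := by
  -- parameters
  have hα2 : 2 * α ^ 2 < 1 := by
    have h1 : α ^ 2 < (1 / √2) ^ 2 := by
      apply pow_lt_pow_left₀ hα' hα.le (by norm_num)
    rw [div_pow, one_pow, Real.sq_sqrt (by norm_num)] at h1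
    linarith
  obtain ⟨ε, hε⟩ : ∃ ε, ε = (1 - 2 * α ^ 2) / 4 := ⟨_, rfl⟩
  have hε0 : 0 < ε := by rw [hε]; linarith
  obtain ⟨κ, hκ⟩ : ∃ κ, κ = ε / 8 := ⟨_, rfl⟩
  have hκ0 : 0 < κ := by rw [hκ]; positivity
  have hκ1 : κ ≤ 1 / 2 := by
    rw [hκ, hε]
    have : 0 < α ^ 2 := by positivity
    linarith
  obtain ⟨ρ, hρ0, hρc⟩ := ENNReal.lt_iff_exists_nnreal_btwn.mp hc
  obtain ⟨η, hη⟩ : ∃ η : ℝ, η = ρ / 2 := ⟨_, rfl⟩
  have hη0 : 0 < η := by
    rw [hη]
    have : (0 : ℝ≥0) < ρ := by exact_mod_cast hρ0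
    positivity
  have hηc : ENNReal.ofReal (2 * η) < c := by
    rw [hη]
    have : 2 * ((ρ : ℝ) / 2) = ρ := by ring
    rw [this, ENNReal.ofReal_coe_nnreal]
    exact hρc
  obtain ⟨N₀, hN₀⟩ := exists_nat_ge (1 / (η * κ))
  obtain ⟨N, hN⟩ : ∃ N, N = N₀ + 3 := ⟨_, rfl⟩
  have hN3 : 3 ≤ N := by omega
  have hηN : 1 ≤ η * κ * N := by
    have h1 : 0 < η * κ := mul_pos hη0 hκ0
    have h2 : 1 / (η * κ) ≤ N := by
      rw [hN]; push_cast; linarith
    rw [div_le_iff₀ h1] at h2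
    linarith
  refine ⟨graph κ N, measurableSet_graph κ hN3, graph_unrectifiable hN3 hκ0, ?_, ?_, ?_⟩
  · exact lt_of_lt_of_le zero_lt_one (one_le_hausdorff κ)
  · have h1 := hausdorff_image_le hN3 hκ0.le hκ1 0 1 (by norm_num)
    have h2 : Icc (0 : ℝ) 1 ∩ Ico 0 1 = Ico 0 1 := inter_eq_right.mpr Ico_subset_Icc_self
    rw [h2] at h1
    exact lt_of_le_of_lt h1 ENNReal.ofReal_lt_top
  · intro x hx
    refine lt_of_le_of_lt ?_ hηc
    apply limsup_le_of_le (by isBoundedDefault)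
    filter_upwards [self_mem_nhdsWithin] with r hr
    exact cone_measure_le hN3 hκ0 hκ1 hκ.le hη0 hηN (by rw [hε]; linarith) x hx r hr

end Pool.Agent.Results.MP_924b48_an.ConicalDensityFails
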